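import Pool.Agent.L7h2.QS.Dens2
import Pool.Agent.L7h2.QS.Upper

set_option autoImplicit false

/-!
# Upper bounds for the number of primes `a n ^ 2 + b n + c` in almost all short intervals

For an individual interval `(N, N + X ^ h]` the sieve gives at most `(4 / h + δ)` times the number predicted
by Hardy and Littlewood for the `n` with `a n ^ 2 + b n + c` prime. Here the constant is `4 / t + δ` for all
but at most `X ^ (2 t - h + ε)` of the `N ≤ X`, for every `1 / 2 ≤ t < 1`: the constant is `8 / (1 + h) + δ`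
for almost all `N`, and `8 + δ` for all but `X ^ (1 - h + ε)` of them, however small `h > 0` is.
-/

namespace Pool.Agent.Results.MP_a1177c_nt.AlmostAllShortUpper

open Finset Filter Topology

/-- the triple `(a, b, c)` is admissible -/
def Admissible (a b c : ℤ) : Prop :=
  0 < a ∧ (∀ d : ℤ, d ∣ a → d ∣ b → d ∣ c → IsUnit d) ∧ ¬ ((2 : ℤ) ∣ a + b ∧ (2 : ℤ) ∣ c) ∧
    ¬ IsSquare (b ^ 2 - 4 * a * c)

/-- `ε = 2` if `a + b` is even and `ε = 1` if `a + b` is odd -/
noncomputable def eps (a b : ℤ) : ℝ := if (2 : ℤ) ∣ a + b then 2 else 1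

/-- the product `∏_{p > 2, p ∣ gcd(a, b)} p / (p - 1)` -/
noncomputable def gcdProd (a b : ℤ) : ℝ :=
  ∏ p ∈ (Int.gcd a b).primeFactors.filter (fun p => 2 < p), (p : ℝ) / (p - 1)

/-- the partial product `∏_{2 < p ≤ z, p ∤ a} (1 - (D / p) / (p - 1))` of `C(a, b, c)`, where
`D = b² - 4 a c` -/
noncomputable def partialC (a b c : ℤ) (z : ℕ) : ℝ :=
  ∏ p ∈ (Icc 3 z).filter (fun p : ℕ => p.Prime ∧ ¬ (p : ℤ) ∣ a),
    (1 - (jacobiSym (b ^ 2 - 4 * a * c) p : ℝ) / (p - 1))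

/-- The number of the integers `n` in `(N, N + H]` such that `a n ^ 2 + b n + c` is a (positive) prime. -/
def primeCount (a b c : ℤ) (N H : ℕ) : ℕ :=
  ((Ioc N (N + H)).filter (fun n : ℕ => (a * (n : ℤ) ^ 2 + b * n + c).toNat.Prime)).card

open Classical in
/-- **Primes `a n ^ 2 + b n + c` in almost all short intervals.** Let `(a, b, c)` be admissible. The product
`C(a, b, c)` converges to a number `S > 0`, and for all `0 < h ≤ 1`, `1 / 2 ≤ t < 1` and `δ, ε > 0` and all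
large `X` the number of the `n` in `(N, N + X ^ h]` with `a n ^ 2 + b n + c` prime is at most `4 / t + δ`
times the predicted number `(1 / 2) ε S ∏_{p > 2, p ∣ gcd(a, b)} p / (p - 1) X ^ h / log X`, for all but at
most `X ^ (2 t - h + ε)` of the integers `1 ≤ N ≤ X`. -/
theorem result (a b c : ℤ) (habc : Admissible a b c) : ∃ S : ℝ, 0 < S ∧
    Tendsto (fun z => partialC a b c z) atTop (𝓝 S) ∧
    ∀ h t δ ε : ℝ, 0 < h → h ≤ 1 → 1 / 2 ≤ t → t < 1 → 0 < δ → 0 < ε →
      ∀ᶠ X : ℕ in atTop, (((Icc 1 X).filter (fun N : ℕ =>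
        (4 / t + δ) * (eps a b * S * gcdProd a b / 2 * ((X : ℝ) ^ h / Real.log X)) <
          (primeCount a b c N ⌊(X : ℝ) ^ h⌋₊ : ℝ))).card : ℝ) ≤ (X : ℝ) ^ (2 * t - h + ε) := by
  have hQ : Pool.Agent.L7h2.QS.Adm a b c := by
    refine ⟨habc.1.ne', ?_, habc.2.2.1, habc.2.2.2⟩
    rintro p hp ⟨h1, h2, h3⟩
    have h4 := Int.isUnit_iff.1 (habc.2.1 p h1 h2 h3)
    have h5 := hp.two_le
    omega
  obtain ⟨S, hS, hS1, hS2⟩ := Pool.Agent.L7h2.QS.partialC_conv hQ
  have he := Pool.Agent.L7h2.QS.eps_pos a b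
  have hg := Pool.Agent.L7h2.QS.gcdProd_pos a b
  refine ⟨S, hS, hS1, ?_⟩
  intro h t δ ε a1 a2 a3 a4 a5 a6
  exact Pool.Agent.L7h2.QS.mainUp hQ habc.1 (eps a b * S * gcdProd a b) (mul_pos (mul_pos he hS) hg) hS2
    h t δ ε a1 a2 a3 a4 a5 a6

end Pool.Agent.Results.MP_a1177c_nt.AlmostAllShortUpper
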