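import Pool.Agent.L7h18.SDd

/-!
# The Hardy–Littlewood formula for all quadratic polynomials with leading coefficient `q²` and discriminant `-4 q² l²`,
# for almost all `l`

The polynomials are `(q X + r)² + l²`. Proof: for `M ^ (2 / 3 + ε) ≤ L ≤ M ^ (1 - ε)` project GN of the starting files
(`Pool.Agent.N782.GN.c_mainx`) evaluates `∑_{|m| ≤ M, m ≡ m₀ (q)} Λ(l² + m²)` with an error which is small on average over
`l ≤ L`, `l ≡ l₀ (q)` (the theorem of Fouvry and Iwaniec for short ranges of `l`).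
-/

set_option autoImplicit false

namespace Pool.Agent.Results.MP_a1177c_nt.MinusSquareDiscriminants

open Finset Filter Topology

/-- the triple `(a, b, c)` is admissible -/
def Admissible (a b c : ℤ) : Prop :=
  0 < a ∧ (∀ d : ℤ, d ∣ a → d ∣ b → d ∣ c → IsUnit d) ∧ ¬ ((2 : ℤ) ∣ a + b ∧ (2 : ℤ) ∣ c) ∧
    ¬ IsSquare (b ^ 2 - 4 * a * c)

/-- the number of the integers `u < m ≤ v` for which `a m² + b m + c` is a (positive) prime -/
noncomputable def primeCount (a b c u v : ℤ) : ℕ := #((Ioc u v).filter (fun m : ℤ => (a * m ^ 2 + b * m + c).toNat.Prime))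

/-- the sum of `1 / log (a m² + b m + c)` over the integers `u < m ≤ v` -/
noncomputable def logSum (a b c u v : ℤ) : ℝ := ∑ m ∈ Ioc u v, 1 / Real.log ((a * m ^ 2 + b * m + c : ℤ) : ℝ)

/-- `ε = 2` if `a + b` is even and `ε = 1` if `a + b` is odd -/
noncomputable def eps (a b : ℤ) : ℝ := if (2 : ℤ) ∣ a + b then 2 else 1

/-- the product `∏_{p > 2, p ∣ gcd(a, b)} p / (p - 1)` -/
noncomputable def gcdProd (a b : ℤ) : ℝ :=
  ∏ p ∈ (Int.gcd a b).primeFactors.filter (fun p => 2 < p), (p : ℝ) / (p - 1)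

/-- the product `∏_{2 < p ≤ z, p ∤ a} (1 - (D / p) / (p - 1))`, where `D = b² - 4 a c` -/
noncomputable def partialC (a b c : ℤ) (z : ℕ) : ℝ :=
  ∏ p ∈ (Icc 3 z).filter (fun p : ℕ => p.Prime ∧ ¬ (p : ℤ) ∣ a),
    (1 - (jacobiSym (b ^ 2 - 4 * a * c) p : ℝ) / (p - 1))

open Pool.Agent.L7h18.SD
open Pool.Agent.N782.GN (ZI pp SS gq c_ssl ev_log_pow ev_log_rpow)

/-- the Legendre symbol -/
theorem jac_eq (q : ℕ) (l : ℤ) (p : ℕ) (hp : p.Prime) (h3 : 3 ≤ p) (hpq : ¬ p ∣ q) :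
    jacobiSym (-(4 * (q : ℤ) ^ 2 * l ^ 2)) p = if (p : ℤ) ∣ l then 0 else ZMod.χ₄ (p : ZMod 4) := by
  have := Fact.mk hp
  have hodd : Odd p := hp.odd_of_ne_two (by omega)
  have e1 : -(4 * (q : ℤ) ^ 2 * l ^ 2) = (-1) * (2 * q * l) ^ 2 := by ring
  rw [e1, jacobiSym.mul_left, jacobiSym.at_neg_one hodd]
  split_ifs with hl
  · have : jacobiSym ((2 * (q : ℤ) * l) ^ 2) p = 0 := by
      rw [pow_two, jacobiSym.mul_left, mul_self_eq_zero]
      rw [jacobiSym.eq_zero_iff_not_coprime]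
      rw [Int.gcd_eq_natAbs]
      intro hc
      have h1 : p ∣ (2 * (q : ℤ) * l).natAbs := by
        rw [← Int.natCast_dvd]
        exact dvd_mul_of_dvd_right hl _
      have h2 : p ∣ Nat.gcd (2 * (q : ℤ) * l).natAbs (p : ℤ).natAbs := Nat.dvd_gcd h1 (by simp)
      rw [hc] at h2
      exact hp.one_lt.ne' (Nat.dvd_one.1 h2)
    rw [this, mul_zero]
  · have hg : Int.gcd (2 * (q : ℤ) * l) p = 1 := by
      rw [Int.gcd_eq_natAbs, Int.natAbs_natCast, ← Nat.coprime_iff_gcd_eq_one, Nat.coprime_comm,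
        hp.coprime_iff_not_dvd]
      intro hd
      rw [← Int.natCast_dvd] at hd
      rcases (Nat.prime_iff_prime_int.1 hp).dvd_or_dvd hd with h1 | h1
      · rcases (Nat.prime_iff_prime_int.1 hp).dvd_or_dvd h1 with h2 | h2
        · have : p ∣ 2 := by exact_mod_cast h2
          have := Nat.le_of_dvd (by norm_num) this
          omega
        · exact hpq (by exact_mod_cast h2)
      · exact hl h1
    rw [jacobiSym.sq_one' hg, mul_one]

/-- the product of the problem -/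
theorem partial_eq (q l : ℕ) (b c : ℤ) (hq : 1 ≤ q)
    (hD : b ^ 2 - 4 * (q : ℤ) ^ 2 * c = -(4 * (q : ℤ) ^ 2 * (l : ℤ) ^ 2)) (z : ℕ) (hz : q ≤ z) :
    partialC ((q : ℤ) ^ 2) b c z * Pq q l = pp l z := by
  classical
  have e0 : ∀ p : ℕ, p.Prime → ((p : ℤ) ∣ (q : ℤ) ^ 2 ↔ p ∣ q) := by
    intro p hp
    constructor
    · intro h
      have h1 : p ∣ q ^ 2 := by exact_mod_cast h
      exact hp.dvd_of_dvd_pow h1
    · intro h
      have h1 : p ∣ q ^ 2 := dvd_pow h two_ne_zero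
      exact_mod_cast h1
  have e1 : partialC ((q : ℤ) ^ 2) b c z =
      ∏ p ∈ ((Icc 3 z).filter (fun p : ℕ => p.Prime ∧ ¬ p ∣ q)).filter (fun p : ℕ => ¬ (p : ℤ) ∣ (l : ℤ)),
        (1 - ((ZMod.χ₄ (p : ZMod 4) : ℤ) : ℝ) / ((p : ℝ) - 1)) := by
    unfold partialC
    rw [hD, prod_filter (fun p : ℕ => ¬ (p : ℤ) ∣ (l : ℤ))]
    have e2 : (Icc 3 z).filter (fun p : ℕ => p.Prime ∧ ¬ (p : ℤ) ∣ (q : ℤ) ^ 2) =
        (Icc 3 z).filter (fun p : ℕ => p.Prime ∧ ¬ p ∣ q) := by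
      apply filter_congr
      intro p _
      constructor
      · rintro ⟨h1, h2⟩
        exact ⟨h1, fun h => h2 ((e0 p h1).2 h)⟩
      · rintro ⟨h1, h2⟩
        exact ⟨h1, fun h => h2 ((e0 p h1).1 h)⟩
    rw [e2]
    refine prod_congr rfl fun p hp => ?_
    rw [mem_filter, mem_Icc] at hp
    rw [jac_eq q l p hp.2.1 hp.1.1 hp.2.2]
    split_ifs with h
    · simp
    · rfl
  have e3 : (Icc 3 z).filter (fun p : ℕ => p.Prime ∧ ¬ (p : ℤ) ∣ (l : ℤ)) =
      ((Icc 3 z).filter (fun p : ℕ => p.Prime ∧ ¬ p ∣ q)).filter (fun p : ℕ => ¬ (p : ℤ) ∣ (l : ℤ)) ∪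
        q.primeFactors.filter (fun p : ℕ => p ≠ 2 ∧ ¬ (p : ℤ) ∣ (l : ℤ)) := by
    ext p
    simp only [mem_filter, mem_Icc, mem_union, Nat.mem_primeFactors]
    constructor
    · rintro ⟨⟨h1, h2⟩, h3, h4⟩
      by_cases h : p ∣ q
      · exact Or.inr ⟨⟨h3, h, by omega⟩, by omega, h4⟩
      · exact Or.inl ⟨⟨⟨h1, h2⟩, h3, h⟩, h4⟩
    · rintro (⟨⟨⟨h1, h2⟩, h3, h⟩, h4⟩ | ⟨⟨h3, h, h5⟩, h6, h4⟩)
      · exact ⟨⟨h1, h2⟩, h3, h4⟩
      · have := h3.two_le
        have := Nat.le_of_dvd (by omega) h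
        exact ⟨⟨by omega, by omega⟩, h3, h4⟩
  have e4 : Disjoint (((Icc 3 z).filter (fun p : ℕ => p.Prime ∧ ¬ p ∣ q)).filter (fun p : ℕ => ¬ (p : ℤ) ∣ (l : ℤ)))
      (q.primeFactors.filter (fun p : ℕ => p ≠ 2 ∧ ¬ (p : ℤ) ∣ (l : ℤ))) := by
    rw [disjoint_left]
    intro p hp hp'
    rw [mem_filter, mem_filter] at hp
    rw [mem_filter] at hp'
    exact hp.1.2.2 (Nat.dvd_of_mem_primeFactors hp'.1)
  rw [e1]
  unfold Pq pp
  rw [e3, prod_union e4]

/-- the other constants of the problem -/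
theorem const_eq (q : ℕ) (hq : 1 ≤ q) (r : ℤ) :
    eps ((q : ℤ) ^ 2) (2 * q * r) * gcdProd ((q : ℤ) ^ 2) (2 * q * r) = (q : ℝ) / (Nat.totient q : ℝ) := by
  have e1 : (Int.gcd ((q : ℤ) ^ 2) (2 * q * r)).primeFactors = q.primeFactors := by
    ext p
    rw [Nat.mem_primeFactors, Nat.mem_primeFactors]
    have hq2 : (q : ℤ) ^ 2 ≠ 0 := by positivity
    constructor
    · rintro ⟨h1, h2, -⟩
      have h3 : (p : ℤ) ∣ (q : ℤ) ^ 2 := (Int.natCast_dvd_natCast.2 h2).trans (Int.gcd_dvd_left _ _)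
      have h4 : p ∣ q ^ 2 := by exact_mod_cast h3
      exact ⟨h1, h1.dvd_of_dvd_pow h4, by omega⟩
    · rintro ⟨h1, h2, -⟩
      refine ⟨h1, ?_, ?_⟩
      · apply Int.dvd_gcd
        · exact_mod_cast dvd_pow h2 two_ne_zero
        · have : (p : ℤ) ∣ (q : ℤ) := by exact_mod_cast h2
          exact (this.mul_left 2).mul_right r
      · intro h
        exact hq2 (Int.gcd_eq_zero_iff.1 h).1
  have e2 : (2 : ℤ) ∣ (q : ℤ) ^ 2 + 2 * q * r ↔ 2 ∣ q := by
    constructor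
    · intro h
      have h1 : (2 : ℤ) ∣ (q : ℤ) ^ 2 := by
        have := dvd_sub h (Dvd.intro ((q : ℤ) * r) (by ring) : (2 : ℤ) ∣ 2 * q * r)
        rwa [add_sub_cancel_right] at this
      have h2 : 2 ∣ q ^ 2 := by exact_mod_cast h1
      exact Nat.prime_two.dvd_of_dvd_pow h2
    · intro h
      have h1 : (2 : ℤ) ∣ (q : ℤ) := by exact_mod_cast h
      exact dvd_add (dvd_pow h1 two_ne_zero) (Dvd.intro ((q : ℤ) * r) (by ring))
  unfold eps gcdProd
  rw [e1, tot_prod q hq]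
  simp only [e2]
  split_ifs with h
  · have e3 : q.primeFactors = insert 2 (q.primeFactors.filter (fun p => 2 < p)) := by
      ext p
      rw [mem_insert, mem_filter, Nat.mem_primeFactors]
      constructor
      · rintro ⟨h1, h2, h3⟩
        have := h1.two_le
        rcases eq_or_lt_of_le this with h4 | h4
        · exact Or.inl h4.symm
        · exact Or.inr ⟨⟨h1, h2, h3⟩, h4⟩
      · rintro (h1 | h1)
        · subst h1
          exact ⟨Nat.prime_two, h, by omega⟩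
        · exact h1.1
    conv_rhs => rw [e3]
    rw [prod_insert (by simp)]
    norm_num
  · have e3 : q.primeFactors.filter (fun p => 2 < p) = q.primeFactors := by
      rw [filter_eq_self]
      intro p hp
      rw [Nat.mem_primeFactors] at hp
      have := hp.1.two_le
      rcases eq_or_lt_of_le this with h4 | h4
      · rw [← h4] at hp
        exact absurd hp.2.1 h
      · exact h4
    rw [e3, one_mul]

/-- **The Hardy–Littlewood formula for all quadratic polynomials with leading coefficient `q²`, `q ≤ Q`, and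
discriminant `-4 q² l²`, for almost all `l`.** There is an absolute `κ > 0` such that for all fixed `Q`, `A` and `ε > 0`,
for all large `L`, for all `l ≤ L` but at most `L / (log L)^A` exceptions, all `q ≤ Q` and all `b`, `c` with
`b² - 4 q² c = -4 q² l²`: if `(q², b, c)` is admissible, then the product `C(q², b, c)` converges to a number `C > 0`, the
number `H = ε C ∏_{p > 2, p ∣ gcd(q², b)} p / (p - 1)` is at least `κ φ(l) / l`, and for all `x` with
`L^(1+ε) ≤ x ≤ L^(3/2-ε)` and all windows `(u, v]` contained in the interval `|2 q² m + b| ≤ 2 q x`, the number of the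
`m` in the window with `q² m² + b m + c` prime differs from `H ∑_{u < m ≤ v} 1 / log (q² m² + b m + c)` by at most
`x / (log L)^A`; if `q²` does not divide `b` the windows must be symmetric, i.e. of the form `|2 q² m + b| ≤ 2 q y`. -/
theorem result : ∃ κ : ℝ, 0 < κ ∧ ∀ (Q A : ℕ) (ε : ℝ), 0 < ε → ∃ L₀ : ℕ, ∀ L : ℕ, L₀ ≤ L →
    ∃ Bad ⊆ Icc 1 L, (#Bad : ℝ) ≤ L / Real.log L ^ A ∧ ∀ l ∈ Icc 1 L, l ∉ Bad → ∀ q ∈ Icc 1 Q, ∀ b c : ℤ,
      b ^ 2 - 4 * (q : ℤ) ^ 2 * c = -(4 * (q : ℤ) ^ 2 * (l : ℤ) ^ 2) → Admissible ((q : ℤ) ^ 2) b c →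
      ∃ C : ℝ, 0 < C ∧ Tendsto (fun z => partialC ((q : ℤ) ^ 2) b c z) atTop (𝓝 C) ∧
        κ * Nat.totient l ≤ eps ((q : ℤ) ^ 2) b * C * gcdProd ((q : ℤ) ^ 2) b * l ∧
        ∀ x : ℝ, (L : ℝ) ^ (1 + ε) ≤ x → x ≤ (L : ℝ) ^ (3 / 2 - ε) → ∀ u v : ℤ,
          (∀ m ∈ Ioc u v, |((2 * (q : ℤ) ^ 2 * m + b : ℤ) : ℝ)| ≤ 2 * q * x) →
          ((q : ℤ) ^ 2 ∣ b ∨ ∃ y : ℝ, ∀ m : ℤ, m ∈ Ioc u v ↔ |((2 * (q : ℤ) ^ 2 * m + b : ℤ) : ℝ)| ≤ 2 * q * y) →
          |(primeCount ((q : ℤ) ^ 2) b c u v : ℝ) -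
            eps ((q : ℤ) ^ 2) b * C * gcdProd ((q : ℤ) ^ 2) b * logSum ((q : ℤ) ^ 2) b c u v| ≤
            x / Real.log L ^ A := by
  classical
  refine ⟨SS 1, (c_ssl 1 one_ne_zero).2, fun Q A ε hε => ?_⟩
  set ε' : ℝ := min (ε / 2) (1 / 4) with hε'
  have hε'0 : 0 < ε' := lt_min (by positivity) (by norm_num)
  have hε'1 : ε' ≤ ε / 2 := min_le_left _ _
  obtain ⟨L₁, hL₁, h1⟩ := all_aa Q ε' (A + 1) hε'0 (min_le_right _ _)
  have h2 : ∀ᶠ L : ℝ in atTop, ∀ q ∈ Icc 1 Q, ∀ (m0 : ℤ) (l : ℕ), 1 ≤ l → (l : ℝ) ≤ L → Gd q m0 ε' (A + 1) L l →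
      ∀ x : ℝ, L ^ (1 + 2 * ε') ≤ x → x ≤ L ^ (3 / 2 - ε') →
      ∀ N : ℕ, (N : ℝ) ≤ x → |Es q m0 l N| ≤ 3 * x / (Real.log L) ^ (A + 1) := by
    refine (Filter.eventually_all_finset (Icc 1 Q)).2 fun q hq => ?_
    rw [mem_Icc] at hq
    obtain ⟨L₂, _, h⟩ := Es_bound q hq.1 ε' (A + 1) hε'0
    exact eventually_atTop.2 ⟨L₂, h⟩
  obtain ⟨L₃, h3⟩ := eventually_atTop.1 (((h2.and (eventually_ge_atTop (3 : ℝ))).and
    (ev_log_rpow 1 one_pos (A + 1) (4 * (1 + 7 * Q)))).and (ev_log_pow 1 12 one_pos 0))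
  refine ⟨⌈max L₁ L₃⌉₊, fun L hL => ?_⟩
  have hLr : max L₁ L₃ ≤ (L : ℝ) := (Nat.le_ceil _).trans (by exact_mod_cast hL)
  obtain ⟨Bad, hB1, hB2, hB3⟩ := h1 L ((le_max_left _ _).trans hLr)
  obtain ⟨⟨⟨h4, hL3⟩, h5⟩, h6⟩ := h3 L ((le_max_right _ _).trans hLr)
  rw [zero_add, pow_one, one_mul] at h6
  rw [Real.rpow_one] at h5
  rw [Nat.floor_natCast] at hB1 hB3
  set ℓ : ℝ := Real.log L with hℓ
  have hℓ0 : 0 < ℓ := by linarith
  have hL1 : (1 : ℝ) ≤ L := by linarith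
  have hL0 : (0 : ℝ) < L := by linarith
  refine ⟨Bad, hB1, hB2.trans ?_, ?_⟩
  · apply div_le_div_of_nonneg_left hL0.le (by positivity)
    exact pow_le_pow_right₀ (by linarith) (by omega)
  intro l hl hlB q hq b c hD hadm
  have hl' := mem_Icc.1 hl
  have hq' := mem_Icc.1 hq
  have hq0 : (0 : ℤ) < q := by exact_mod_cast hq'.1
  have hqR : (1 : ℝ) ≤ q := by exact_mod_cast hq'.1
  -- the shift
  obtain ⟨r, hr, hc⟩ : ∃ r : ℤ, b = 2 * q * r ∧ c = r ^ 2 + (l : ℤ) ^ 2 := by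
    have a1 : (2 * (q : ℤ)) ^ 2 ∣ b ^ 2 := ⟨c - (l : ℤ) ^ 2, by linear_combination hD⟩
    rw [Int.pow_dvd_pow_iff two_ne_zero] at a1
    obtain ⟨r, hr⟩ := a1
    refine ⟨r, hr, ?_⟩
    have a2 : (4 * (q : ℤ) ^ 2) * c = (4 * (q : ℤ) ^ 2) * (r ^ 2 + (l : ℤ) ^ 2) := by
      rw [hr] at hD
      linear_combination -hD
    exact mul_left_cancel₀ (by positivity) a2
  -- coprimality
  have hcop : IsCoprime (⟨(l : ℤ), r⟩ : ZI) ((q : ℕ) : ZI) := by
    have a1 : IsCoprime ((l : ℤ) ^ 2 + r ^ 2) (q : ℤ) := by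
      rw [Int.isCoprime_iff_gcd_eq_one]
      by_contra hg
      obtain ⟨p, hp, hpd⟩ := Nat.exists_prime_and_dvd hg
      have b1 : (p : ℤ) ∣ (l : ℤ) ^ 2 + r ^ 2 := (Int.natCast_dvd_natCast.2 hpd).trans (Int.gcd_dvd_left _ _)
      have b2 : (p : ℤ) ∣ (q : ℤ) := (Int.natCast_dvd_natCast.2 hpd).trans (Int.gcd_dvd_right _ _)
      have b3 := hadm.2.1 (p : ℤ) (dvd_pow b2 two_ne_zero)
        (by rw [hr]; exact (b2.mul_left 2).mul_right r) (by rw [hc, add_comm]; exact b1)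
      rw [Int.isUnit_iff_natAbs_eq, Int.natAbs_natCast] at b3
      exact hp.one_lt.ne' b3
    have a2 := a1.map (Int.castRingHom ZI)
    rw [eq_intCast, eq_intCast, Int.cast_natCast] at a2
    have a3 : (l : ℤ) ^ 2 + r ^ 2 = Zsqrtd.norm (⟨(l : ℤ), r⟩ : ZI) := by
      rw [Zsqrtd.norm_def]
      ring
    rw [a3, Zsqrtd.norm_eq_mul_conj] at a2
    exact IsCoprime.of_mul_left_left a2
  have hgd := hB3 l hl hlB q hq r hcop
  have hs0 := sx_pos q hq'.1 (l : ℤ) (by omega)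
  have hSS := c_ssl (l : ℤ) (by omega)
  have hPq := Pq_pos q (l : ℤ)
  have hM : eps ((q : ℤ) ^ 2) b * (SS l / Pq q l) * gcdProd ((q : ℤ) ^ 2) b = q * sx q l := by
    have a1 := const_eq q hq'.1 r
    rw [← hr] at a1
    calc eps ((q : ℤ) ^ 2) b * (SS l / Pq q l) * gcdProd ((q : ℤ) ^ 2) b =
        (eps ((q : ℤ) ^ 2) b * gcdProd ((q : ℤ) ^ 2) b) * (SS l / Pq q l) := by ring
      _ = q * sx q l := by
          rw [a1]
          unfold sx
          rw [gq_eq']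
          field_simp
  refine ⟨SS l / Pq q l, div_pos hSS.2 hPq, ?_, ?_, ?_⟩
  · have a1 : Tendsto (fun z => pp l z / Pq q l) atTop (𝓝 (SS l / Pq q l)) := hSS.1.div_const _
    refine a1.congr' ?_
    filter_upwards [eventually_ge_atTop q] with z hz
    rw [← partial_eq q l b c hq'.1 hD z hz, mul_div_assoc, div_self hPq.ne', mul_one]
  · rw [hM]
    have a1 := SS_ge l hl'.1
    have a2 : SS l ≤ q * sx q l := by
      unfold sx
      have a3 : (q : ℝ) * (gq q l * SS l / q) = gq q l * SS l := by field_simp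
      rw [a3]
      exact le_mul_of_one_le_left hSS.2.le (gq_ge q hq'.1 l)
    calc SS 1 * (Nat.totient l : ℝ) ≤ SS l * l := a1
      _ ≤ q * sx q l * l := mul_le_mul_of_nonneg_right a2 (Nat.cast_nonneg _)
  · intro x hx1 hx2 u v hw hcase
    rw [hM]
    have hxa : (L : ℝ) ^ (1 + 2 * ε') ≤ x :=
      (Real.rpow_le_rpow_of_exponent_le hL1 (by linarith)).trans hx1
    have hxb : x ≤ (L : ℝ) ^ (3 / 2 - ε') := hx2.trans (Real.rpow_le_rpow_of_exponent_le hL1 (by linarith))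
    have hLx : (L : ℝ) ≤ x := by
      refine le_trans ?_ hxa
      calc (L : ℝ) = (L : ℝ) ^ (1 : ℝ) := (Real.rpow_one _).symm
        _ ≤ _ := Real.rpow_le_rpow_of_exponent_le hL1 (by linarith)
    have hx0 : 0 < x := by linarith
    have hE := h4 q hq r l hl'.1 (by exact_mod_cast hl'.2) hgd x hxa hxb
    have hform : ∀ m : ℤ, (((2 * (q : ℤ) ^ 2 * m + b : ℤ)) : ℝ) = 2 * q * (((q : ℤ) * m + r : ℤ) : ℝ) := by
      intro m
      rw [hr]
      push_cast
      ring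
    have habs : ∀ (m : ℤ) (y : ℝ), |((2 * (q : ℤ) ^ 2 * m + b : ℤ) : ℝ)| ≤ 2 * q * y ↔
        |(((q : ℤ) * m + r : ℤ) : ℝ)| ≤ y := by
      intro m y
      rw [hform, abs_mul, abs_of_pos (show (0 : ℝ) < 2 * q by linarith)]
      constructor
      · intro h
        exact le_of_mul_le_mul_left h (by linarith)
      · intro h
        exact mul_le_mul_of_nonneg_left h (by linarith)
    have key := window_bound q l hq'.1 r x (3 * x / ℓ ^ (A + 1)) hx0.le (by positivity) hE u v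
      (fun m hm => (habs m x).1 (hw m hm)) (by
        rcases hcase with h | ⟨y, hy⟩
        · left
          rw [hr] at h
          obtain ⟨k, hk⟩ := h
          refine ⟨k, ?_⟩
          have : (q : ℤ) * (2 * r) = q * (q * k) := by linear_combination hk
          exact mul_left_cancel₀ hq0.ne' this
        · right
          exact ⟨y, fun m => (hy m).trans (habs m y)⟩)
    have e1 : (primeCount ((q : ℤ) ^ 2) b c u v : ℝ) - q * sx q l * logSum ((q : ℤ) ^ 2) b c u v =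
        ∑ m ∈ Ioc u v, Wz q l (q * m + r) := by
      unfold primeCount logSum Wz
      rw [card_filter, Nat.cast_sum, mul_sum, ← sum_sub_distrib]
      refine sum_congr rfl fun m _ => ?_
      have e2 : (q : ℤ) ^ 2 * m ^ 2 + b * m + c = (l : ℤ) ^ 2 + (q * m + r) ^ 2 := by
        rw [hr, hc]
        ring
      rw [e2]
      split_ifs <;> simp
    rw [e1]
    refine key.trans ?_
    have hW := Wz_zero q l ℓ hℓ0.le hl'.1 hs0.le hgd.1
    have hqQ : (q : ℝ) ≤ Q := by exact_mod_cast hq'.2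
    have f1 : 2 * (3 * x / ℓ ^ (A + 1)) ≤ 1 / 2 * (x / ℓ ^ A) := by
      rw [pow_succ, ← div_div]
      have : 2 * (3 * x / ℓ ^ A / ℓ) = x / ℓ ^ A * (6 / ℓ) := by
        field_simp
        ring
      have f2 : 3 * x / (ℓ ^ A * ℓ) = 3 * x / ℓ ^ A / ℓ := by rw [div_div]
      have f3 : (6 : ℝ) / ℓ ≤ 1 / 2 := by
        rw [div_le_iff₀ hℓ0]
        linarith
      have f4 : 0 ≤ x / ℓ ^ A := by positivity
      nlinarith
    have f2 : 2 * |Wz q l 0| ≤ 1 / 2 * (x / ℓ ^ A) := by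
      have g1 : 2 * |Wz q l 0| ≤ 2 * (1 + 7 * Q * ℓ) := by
        have : 7 * (q : ℝ) * ℓ ≤ 7 * Q * ℓ := by gcongr
        linarith
      have g2 : 2 * (1 + 7 * Q * ℓ) ≤ 1 / 2 * (x / ℓ ^ A) := by
        have g3 : 4 * (1 + 7 * Q * ℓ) * ℓ ^ A ≤ x := by
          calc 4 * (1 + 7 * Q * ℓ) * ℓ ^ A ≤ 4 * (1 * ℓ + 7 * Q * ℓ) * ℓ ^ A := by
                gcongr
                linarith
            _ = 4 * (1 + 7 * Q) * ℓ ^ (A + 1) := by ring
            _ ≤ L := h5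
            _ ≤ x := hLx
        have g4 : 4 * (1 + 7 * Q * ℓ) ≤ x / ℓ ^ A := by
          rw [le_div_iff₀ (by positivity)]
          exact g3
        linarith
      exact g1.trans g2
    linarith

end Pool.Agent.Results.MP_a1177c_nt.MinusSquareDiscriminants
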