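import Pool.Agent.L7h18.DG.B8

/-!
# The Hardy-Littlewood formula for quadratic polynomials, the constant terms of which have missing digits

The constant term of the polynomial is `c₁ + h + d`, where `c₁` is arbitrary and the digits of `d` in a large base `g` are
independent random variables with arbitrary distributions of small variation (for example uniform on the digits
different from one or several missing digits; then the values of `d` form a Cantor set of dimension less than `1`). With
`X = g ^ K`, almost surely the number of the prime values is given by the Hardy-Littlewood formula with the full constant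
for ALL the admissible polynomials `a m² + b m + (c₁ + h + d)` with `a`, `|b|`, `|h|` at most a power of `log X`, and in all
intervals of `m` (of both signs) up to the height `√X` times a power of `log X`. The error is `√X / (log X) ^ U` with
arbitrary `U`, while the constant of the formula is at least `1 / K`, so that it is an asymptotic formula with all savings
of powers of the logarithm, also in intervals of the length `√X / (log X) ^ U'`.

Method. The second moment over `d` of the sum over `m` of the difference between the indicator function of the primes and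
its sieve model (up to `z = K ^ E`) is a double integral over the frequencies `α` and `β` of the exponential sums of this
difference and of the Weyl sums against the Fourier transform of the law of `d` at `α - β`, which has a small `L¹` norm on
the arcs around the fractions with small denominators (the leading and the last digits are used). The inverse theorem
for Weyl sums and the theorem of Siegel and Walfisz (starting files) save every power of the logarithm. The product over
the primes `p > z` is close to `1` almost surely: for the sum of `(b² - 4 a c / p) / p` over the primes from `z` to a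
power of `X` the second moment over random `d` with independent digits is computed by Gauss sums and the Fourier
transform of the law, and for the larger primes the exceptions (starting files: large sieve, moments) are at most
`X ^ (3 / 4)` numbers `d`, so that their probability is small for every law of small variation. From Mathlib: `jacobiSym`, `Int.toNat` (zero for negative integers), `Finset.Ioc u v`
(the integers with `u < m ≤ v`).
-/

set_option autoImplicit false

namespace Pool.Agent.Results.MP_a1177c_nt.MissingDigitConstants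

open Finset Filter Topology

/-- the triple `(a, b, c)` is admissible -/
def Admissible (a b c : ℤ) : Prop :=
  0 < a ∧ (∀ d : ℤ, d ∣ a → d ∣ b → d ∣ c → IsUnit d) ∧ ¬ ((2 : ℤ) ∣ a + b ∧ (2 : ℤ) ∣ c) ∧
    ¬ IsSquare (b ^ 2 - 4 * a * c)

/-- the number of integers `u < m ≤ v` for which `a m² + b m + c` is a (positive) prime -/
noncomputable def primeCount (a b c u v : ℤ) : ℕ :=
  #((Ioc u v).filter (fun m : ℤ => (a * m ^ 2 + b * m + c).toNat.Prime))

/-- the sum of `1 / log (a m² + b m + c)` over the integers `u < m ≤ v` with `a m² + b m + c ≥ 2` -/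
noncomputable def logSum (a b c u v : ℤ) : ℝ :=
  ∑ m ∈ (Ioc u v).filter (fun m : ℤ => 2 ≤ a * m ^ 2 + b * m + c), 1 / Real.log ((a * m ^ 2 + b * m + c : ℤ) : ℝ)

/-- `ε = 2` if `a + b` is even and `ε = 1` if `a + b` is odd -/
noncomputable def eps (a b : ℤ) : ℝ := if (2 : ℤ) ∣ a + b then 2 else 1

/-- the product `∏_{p > 2, p ∣ gcd(a, b)} p / (p - 1)` -/
noncomputable def gcdProd (a b : ℤ) : ℝ :=
  ∏ p ∈ (Int.gcd a b).primeFactors.filter (fun p => 2 < p), (p : ℝ) / (p - 1)

/-- the product `∏_{2 < p ≤ z, p ∤ a} (1 - (D / p) / (p - 1))`, where `D = b² - 4 a c` -/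
noncomputable def partialC (a b c : ℤ) (z : ℕ) : ℝ :=
  ∏ p ∈ (Icc 3 z).filter (fun p : ℕ => p.Prime ∧ ¬ (p : ℤ) ∣ a),
    (1 - (jacobiSym (b ^ 2 - 4 * a * c) p : ℝ) / (p - 1))

/-- The total variation of a function `p` on the digits `0, ..., g - 1`, continued by zero outside: for the uniform
distribution on a set of `s` digits which is the union of `r` (nonadjacent) intervals it is `2 r / s`. -/
noncomputable def variation (g : ℕ) (p : ℕ → ℝ) : ℝ :=
  |p 0| + ∑ i ∈ range (g - 1), |p (i + 1) - p i| + |p (g - 1)|

/-- `p i` is the distribution of the `i`-th digit in base `g`: a probability on `{0, ..., g - 1}` the variation of which is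
at most `g ^ (1 / n) / g`. -/
def DigitLaws (g n : ℕ) (p : ℕ → ℕ → ℝ) : Prop :=
  ∀ i, (∀ j, 0 ≤ p i j) ∧ ∑ j ∈ range g, p i j = 1 ∧ (g * variation g (p i)) ^ n ≤ g

/-- The probability of `d` (where `0 ≤ d < g ^ K`) if the `K` digits `d / g ^ i % g` of `d` in base `g` are independent and
the `i`-th digit has the distribution `p i`. -/
noncomputable def prob (g K : ℕ) (p : ℕ → ℕ → ℝ) (d : ℕ) : ℝ := ∏ i ∈ range K, p i (d / g ^ i % g)

/-- There are `n` and `g₀` such that for all bases `g ≥ g₀`, all `A` and `U` and all large `K`: let `X = g ^ K`, let `p i` be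
distributions of digits of variation at most `g ^ (1 / n) / g` and let `c₁` be an integer with `|c₁| ≤ K ^ A X`. Then a
random `d` with `K` independent digits with the distributions `p i` has, up to an event of probability at most `K ^ (-U)`,
the following property: for ALL `a`, `b`, `h` with `0 < a ≤ K ^ A`, `|b| ≤ K ^ A` and `|h| ≤ K ^ A` for which `(a, b, c)` with
`c = c₁ + h + d` is admissible, the product `C(a, b, c)` converges to a number `S`, the constant
`M = ε S ∏_{p > 2, p ∣ gcd(a, b)} p / (p - 1)` is at least `1 / K`, and for all `u`, `v` with `|u|, |v| ≤ K ^ A √X` the number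
of the integers `u < m ≤ v` with `a m² + b m + c` prime differs from `M ∑ 1 / log (a m² + b m + c)`, the sum over the
`u < m ≤ v` with `a m² + b m + c ≥ 2`, by at most `√X / K ^ U`. -/
theorem result : ∃ n g₀ : ℕ, ∀ g : ℕ, g₀ ≤ g → ∀ A U : ℕ, ∃ K₀ : ℕ, ∀ K : ℕ, K₀ ≤ K →
    ∀ p : ℕ → ℕ → ℝ, DigitLaws g n p → ∀ c₁ : ℤ, |c₁| ≤ (K : ℤ) ^ A * (g : ℤ) ^ K →
    ∃ Ex ⊆ range (g ^ K), ∑ d ∈ Ex, prob g K p d ≤ 1 / (K : ℝ) ^ U ∧
    ∀ d ∈ range (g ^ K), d ∉ Ex →
    ∀ a b h : ℤ, 0 < a → a ≤ (K : ℤ) ^ A → |b| ≤ (K : ℤ) ^ A → |h| ≤ (K : ℤ) ^ A → Admissible a b (c₁ + h + d) →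
      ∃ S : ℝ, Tendsto (fun z => partialC a b (c₁ + h + d) z) atTop (𝓝 S) ∧
        1 / (K : ℝ) ≤ eps a b * S * gcdProd a b ∧
        ∀ u v : ℤ, |(u : ℝ)| ≤ (K : ℝ) ^ A * √((g : ℝ) ^ K) → |(v : ℝ)| ≤ (K : ℝ) ^ A * √((g : ℝ) ^ K) →
          |(primeCount a b (c₁ + h + d) u v : ℝ) - eps a b * S * gcdProd a b * logSum a b (c₁ + h + d) u v| ≤
            √((g : ℝ) ^ K) / (K : ℝ) ^ U := by
  obtain ⟨n, b₀, -, -, h⟩ := Pool.Agent.L7h18.DG.quad_final
  refine ⟨n, b₀, fun g hg A U => ?_⟩
  obtain ⟨K0, hK0⟩ := h g hg A U
  refine ⟨K0, fun K hK p hp c₁ hc₁ => ?_⟩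
  obtain ⟨Ex, h1, h2, h3⟩ := hK0 K hK p (fun i => ⟨(hp i).1, (hp i).2.1⟩) (fun i => by
    rw [mul_comm]
    exact (hp i).2.2) c₁ hc₁
  refine ⟨Ex, h1, ?_, fun d hd hdE a b k ha haA hb hk hadm => ?_⟩
  · refine le_trans (le_of_eq ?_) h2
    exact sum_congr rfl fun d _ => (Pool.Agent.L7h18.DG.Wt_eq g K p d).symm
  · obtain ⟨S, -, hS1, hS2, hS3⟩ := h3 d (mem_range.1 hd) hdE a b k ha haA hb hk hadm
    exact ⟨S, hS1, hS2, hS3⟩

end Pool.Agent.Results.MP_a1177c_nt.MissingDigitConstants
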