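import Pool.Agent.L7h2.QS.AP

set_option autoImplicit false

/-!
# Almost prime values of quadratic polynomials, in narrow progressions, in almost all very short intervals
-/

namespace Pool.Agent.Results.MP_a1177c_nt.ShortIntervalProgressions

open Finset Filter

/-- the triple `(a, b, c)` is admissible: `a x ^ 2 + b x + c` is irreducible, `a > 0`, and there is no fixed
prime divisor -/
def Admissible (a b c : ℤ) : Prop :=
  0 < a ∧ (∀ d : ℤ, d ∣ a → d ∣ b → d ∣ c → IsUnit d) ∧ ¬ ((2 : ℤ) ∣ a + b ∧ (2 : ℤ) ∣ c) ∧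
    ¬ IsSquare (b ^ 2 - 4 * a * c)

/-- `a n ^ 2 + b n + c` is (up to the sign) a product of at most `r` primes, counted with multiplicity, all
of them at least `w`. -/
def AlmostPrimeArgument (a b c : ℤ) (r : ℕ) (w : ℝ) (n : ℕ) : Prop :=
  (a * (n : ℤ) ^ 2 + b * n + c).natAbs.primeFactorsList.length ≤ r ∧
    ∀ p : ℕ, p.Prime → (p : ℤ) ∣ a * (n : ℤ) ^ 2 + b * n + c → w ≤ p

open Classical in
/-- The number of the `n` in `(M, M + H]` that are terms of an `l`-term arithmetic progression with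
difference at most `D`, contained in `(M, M + H]`, all terms `m` of which are such that
`a m ^ 2 + b m + c` is a product of at most `r` primes, all of them at least `w`. -/
noncomputable def inProgressions (a b c : ℤ) (r : ℕ) (w : ℝ) (l : ℕ) (D : ℝ) (M H : ℕ) : ℕ :=
  ((Ioc M (M + H)).filter (fun n : ℕ => ∃ u d : ℕ, 1 ≤ d ∧ (d : ℝ) ≤ D ∧
    (∀ i < l, AlmostPrimeArgument a b c r w (u + i * d) ∧ M < u + i * d ∧ u + i * d ≤ M + H) ∧
    ∃ i < l, n = u + i * d)).card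

open Classical in
/-- **Progressions of almost primes `a n ^ 2 + b n + c` in almost all short intervals.** Let `(a, b, c)` be
admissible. Let `r = 5`, `1 / 2 ≤ t < 1`, `z = 2 t / 5`, or `r = 4`, `269 / 500 ≤ t < 1`, `z = t / 4`, or
`r = 3`, `29 / 40 ≤ t < 1`, `z = t / 4`. Let `0 < h ≤ t`, `ε > 0` and `l ≥ 2`. There are `δ > 0` and `E`
such that, for all large `X` and all but at most `X ^ (2 t - h + ε)` of the integers `1 ≤ M ≤ X`, the
interval `(M, M + X ^ h]` contains at least `δ X ^ h / log X` integers that are terms of `l`-term arithmetic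
progressions in this interval, with difference at most `(log X) ^ E`, of integers `m` such that
`a m ^ 2 + b m + c` is a product of at most `r` primes, all of them at least `X ^ z`. -/
theorem result (a b c : ℤ) (habc : Admissible a b c) (r : ℕ) (t z : ℝ)
    (hpar : (r = 5 ∧ 1 / 2 ≤ t ∧ z = 2 / 5 * t) ∨ (r = 4 ∧ 269 / 500 ≤ t ∧ z = t / 4) ∨
      (r = 3 ∧ 29 / 40 ≤ t ∧ z = t / 4)) (ht : t < 1) (h ε : ℝ) (hh : 0 < h) (hht : h ≤ t)
    (hε : 0 < ε) (l : ℕ) (hl : 2 ≤ l) :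
    ∃ δ : ℝ, 0 < δ ∧ ∃ E : ℕ, ∀ᶠ X : ℕ in atTop,
      (((Icc 1 X).filter (fun M : ℕ =>
        (inProgressions a b c r ((X : ℝ) ^ z) l (Real.log X ^ E) M ⌊(X : ℝ) ^ h⌋₊ : ℝ) <
        δ * ((X : ℝ) ^ h / Real.log X))).card : ℝ) ≤ (X : ℝ) ^ (2 * t - h + ε) := by
  have hQ : Pool.Agent.L7h2.QS.Adm a b c := by
    refine ⟨habc.1.ne', ?_, habc.2.2.1, habc.2.2.2⟩
    rintro p hp ⟨h1, h2, h3⟩
    have h4 := Int.isUnit_iff.1 (habc.2.1 p h1 h2 h3)
    have h5 := hp.two_le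
    omega
  obtain ⟨δ, hδ, E, hE⟩ := Pool.Agent.L7h2.QS.mainAP hQ habc.1 r t z hpar ht h ε hh hht hε l hl
  refine ⟨δ, hδ, E, ?_⟩
  filter_upwards [hE] with X hX
  refine le_trans ?_ hX
  norm_cast
  apply card_le_card
  intro M hM
  rw [mem_filter] at hM ⊢
  refine ⟨hM.1, lt_of_le_of_lt ?_ hM.2⟩
  norm_cast
  unfold Pool.Agent.L7h2.QS.cntG inProgressions
  apply card_le_card
  have key : ∀ m : ℕ, m ∈ Pool.Agent.L7h2.QS.gsetG a b c r ((X : ℝ) ^ z) M ⌊(X : ℝ) ^ h⌋₊ →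
      AlmostPrimeArgument a b c r ((X : ℝ) ^ z) m ∧ M < m ∧ m ≤ M + ⌊(X : ℝ) ^ h⌋₊ := by
    intro m hm
    unfold Pool.Agent.L7h2.QS.gsetG at hm
    rw [mem_filter, mem_Ioc] at hm
    exact ⟨⟨hm.2.1, hm.2.2⟩, hm.1⟩
  intro n hn
  rw [mem_filter] at hn ⊢
  have hn1 := key n hn.1
  refine ⟨mem_Ioc.2 hn1.2, ?_⟩
  obtain ⟨u, d, h1, h2, h3, h4⟩ := hn.2
  exact ⟨u, d, h1, h2, fun i hi => key _ (h3 i hi).1, h4⟩

end Pool.Agent.Results.MP_a1177c_nt.ShortIntervalProgressions
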